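import Pool.Agent.Y9.RZ.Fin

/-!
# Randomization preserves `λ`-stability, `λ < λ ^ ℵ₀`, only for `ω`-stable theories

Let `T` be a theory in a countable language, `T^R` its randomization and `λ` an infinite cardinal
with `λ < λ ^ ℵ₀`. If `T` is `ω`-stable then so is `T^R` (Keisler). The starting result
`RandomizationNotLambdaStable` shows that `λ`-stability is not preserved, for one theory `T`
(countably many independent predicates). Here we show that it is preserved for no other theories
than the `ω`-stable ones: if `T` is not `ω`-stable then `T^R` is not `λ`-stable. In particular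
`T^R` is superstable only if `T` is `ω`-stable.

Proof. If `T` is not `ω`-stable then there are a countable set `A` in a model `M`, and formulas
`θ_0, θ_1, …` with parameters in `A`, such that all finite combinations of them are realised in `M`
(take a tree of formulas with uncountably many types, and let `θ_j` say that the path of the type
in the tree turns right at the level `j`). In the typical model over `{0,1}^λ` we take as parameters
the constants from `A` and the `λ` independent events `E_i` of the coordinates. For every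
`s : ℕ → λ` there is a type of an `x` with `⟦θ_j(x)⟧ = E_{s(j)}` for all `j`, and no type is close to
two of these. The continuous logic (ultrapowers, Łoś' theorem, typical models) is that of the
starting library `Pool/Agent/H568R2/Rand`.
-/

set_option autoImplicit false

namespace Pool.Agent.Results.MP_eefa83_lc.OnlyOmegaStable

open Cardinal Pool.Agent.H568R2.Rand

/-- Part 1. Let `T` be a theory in a countable language which is not `ω`-stable.
(a) For every infinite `lam` there are a model `N` of `T^R`, a countable set `C` of random elements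
and a set `E` of at most `lam` events of `N`, a number `n`, `ε > 0` and a set of `lam ^ ℵ₀` `n`-types
over `C ∪ E` such that no `n`-type over `C ∪ E` has distance less than `ε` from two of them.
(b) So `T^R` is not `lam`-stable for any infinite `lam < lam ^ ℵ₀`.
(c) So `T^R` is not superstable: it is not `lam`-stable for arbitrarily large `lam`.

Part 2. There is a complete theory `T` in a countable language which is `lam`-stable for all
`lam ≥ 2 ^ ℵ₀` but whose randomization is not `lam`-stable for any infinite `lam < lam ^ ℵ₀`; there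
are arbitrarily large cardinals of this kind. (So the answer to the question is no.) -/
theorem result :
    (∀ (L : FirstOrder.Language.{0, 0}) (T : L.Theory), L.card ≤ ℵ₀ → ¬ FOStable T ℵ₀ →
      (∀ lam : Cardinal.{0}, ℵ₀ ≤ lam →
        ∃ N : PreStr L, N.IsModel (TR T) ∧ ∃ (C : Set N.K) (E : Set N.B), #C ≤ ℵ₀ ∧ #E ≤ lam ∧
          ∃ (n : ℕ) (ε : ENNReal), 0 < ε ∧ ∃ P ⊆ Types N C E n 0, #P = lam ^ ℵ₀ ∧
            ∀ p ∈ P, ∀ p' ∈ P, p ≠ p' → ∀ q ∈ Types N C E n 0,
              typeDist N C E p q < ε → ¬ typeDist N C E p' q < ε) ∧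
      (∀ lam : Cardinal.{0}, ℵ₀ ≤ lam → lam < lam ^ ℵ₀ → ¬ CStable (TR T) lam) ∧
      ∀ κ : Cardinal.{0}, ∃ lam : Cardinal.{0}, κ ≤ lam ∧ ℵ₀ ≤ lam ∧ ¬ CStable (TR T) lam) ∧
    (∃ (L : FirstOrder.Language.{0, 0}) (T : L.Theory), L.card ≤ ℵ₀ ∧ T.IsComplete ∧
      (∀ lam : Cardinal.{0}, 2 ^ ℵ₀ ≤ lam → FOStable T lam) ∧
      ∀ lam : Cardinal.{0}, ℵ₀ ≤ lam → lam < lam ^ ℵ₀ → ¬ CStable (TR T) lam) ∧
    ∀ κ : Cardinal.{0}, ∃ lam : Cardinal.{0}, κ ≤ lam ∧ ℵ₀ ≤ lam ∧ lam < lam ^ ℵ₀ := by
  have hb : ∀ (L : FirstOrder.Language.{0, 0}) (T : L.Theory), L.card ≤ ℵ₀ → ¬ FOStable T ℵ₀ →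
      ∀ lam : Cardinal.{0}, ℵ₀ ≤ lam → lam < lam ^ ℵ₀ → ¬ CStable (TR T) lam :=
    fun L T hL hT lam h0 h1 h => hT (Pool.Agent.Y9.RZ.omega_stable_of hL h0 h1 h)
  refine ⟨fun L T hL hT => ⟨fun lam h0 => Pool.Agent.Y9.RZ.many_types hL hT h0,
    hb L T hL hT, fun κ => ?_⟩, ?_, Pool.Agent.Y9.RZ.large⟩
  · obtain ⟨lam, h1, h2, h3⟩ := Pool.Agent.Y9.RZ.large κ
    exact ⟨lam, h1, h2, hb L T hL hT lam h2 h3⟩
  · obtain ⟨L, T, hL, hT, hn, h⟩ := Pool.Agent.Y9.RZ.example_T0
    exact ⟨L, T, hL, hT, h, hb L T hL hn⟩

end Pool.Agent.Results.MP_eefa83_lc.OnlyOmegaStable
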